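import Pool.Agent.helper52.IR.Spec
import Pool.Agent.helper39.MS.DU1

/-!
# MP_07c750, project IR, row HLG: the microlocal lift and the main estimate

`m = μ (one Ψ) + μ (one Ψ') ≤ 2`; `μ (one Ψ) ≤ ∫ lift Ψ dμ`; then MU gives a time `t` and a large `k`
for which the hypothesis of HMG holds.
-/

set_option autoImplicit false

open scoped MatrixGroups ContDiff Topology UpperHalfPlane
open UpperHalfPlane MeasureTheory Filter Set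

namespace Pool.Agent.IR

open Pool.Agent.RS
open Pool.Agent.MS (bq BB BA SF pf DU1_lift DU1_lift_mk DU1_lift_cont DU1_int)
open Pool.Agent.EN (XG MG mkX mkM fl pr)

theorem HLG_low (Γ : Subgroup SL(2, ℝ)) (hsur : Function.Surjective (mkX Γ)) (μ : Measure (XG Γ)) (hμ : IsProbabilityMeasure μ)
    (Ψ : SL(2, ℝ) → ℝ) (h : InvG Γ Ψ) (h01 : ∀ g, 0 ≤ Ψ g ∧ Ψ g ≤ 1) :
    μ.real (one Γ Ψ) ≤ ∫ x, DU1_lift Γ Ψ h x ∂μ := by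
  have h01' : ∀ x, 0 ≤ DU1_lift Γ Ψ h x ∧ DU1_lift Γ Ψ h x ≤ 1 := by
    intro x
    obtain ⟨g, rfl⟩ := hsur x
    exact h01 g
  have hI := DU1_int Γ μ hμ _ (DU1_lift_cont Γ Ψ h) h01'
  have h2 := mul_meas_ge_le_integral_of_nonneg (μ := μ) (f := DU1_lift Γ Ψ h)
    (Filter.Eventually.of_forall fun x => (h01' x).1) hI 1
  rw [one_mul] at h2
  refine le_trans ?_ h2
  refine measureReal_mono ?_ (measure_ne_top _ _)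
  rintro x ⟨g, rfl, hg⟩
  change 1 ≤ DU1_lift Γ Ψ h (mkX Γ g)
  rw [DU1_lift_mk, hg]

theorem HLG_proof (hHMG : HMG_stmt) (hMU : MS.MU_stmt) (hSTB : MS.STB_stmt) (hXFL : EN.XFL_stmt)
    (hDOM : QU.DOM_stmt) (hDOB : QU.DOB_stmt) : HLG_stmt := by
  intro Γ F r φ ν hΓ hF hr hφ hn hfin hν
  obtain ⟨F₀, hF₀⟩ := hDOM Γ hΓ
  obtain ⟨-, -, -, -, hdob, -⟩ := hDOB Γ F₀ hΓ hF₀
  have hdom := (hdob F hF).2
  obtain ⟨-, hprc, -, -, hsur, -, -, -, -, -, -, hmkM⟩ := hXFL Γ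
  obtain ⟨-, -, -, -, -, hex⟩ := hSTB
  obtain ⟨β, hβ⟩ := (hex (1 / 4) (by norm_num)).2
  obtain ⟨α, hα'⟩ := (hex (1 / 8) (by norm_num)).1
  have hinv : ∀ k (γ : Γ) z, ‖φ k (γ • z)‖ ^ 2 = ‖φ k z‖ ^ 2 := by
    intro k γ z
    rw [(hφ k).2.1 γ z]
  have hn0 : ∀ k, nn F₀ (φ k) = 1 := by
    intro k
    unfold nn
    rw [← hdom _ (hinv k)]
    exact hn k
  have hν0 : ∀ V : MG Γ → ℝ, Continuous V →
      Tendsto (fun k => ∫ z in F₀, V (mkM Γ z) * ‖φ k z‖ ^ 2) atTop (𝓝 (∫ x, V x ∂ν)) := by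
    intro V hV
    refine (hν V hV).congr fun k => ?_
    refine hdom _ fun γ z => ?_
    rw [hinv k γ z, (hmkM (γ • z) z).2 ⟨γ⁻¹, by rw [inv_smul_smul]⟩]
  obtain ⟨μ, hμ, hflow, hmap, hlow⟩ := hMU Γ F₀ β α r φ ν hΓ hF₀ hβ hα' hr hφ hn0 hfin hν0
  obtain ⟨K, hK, hHM⟩ := hHMG Γ F₀ β α hΓ hF₀ hβ hα'
  refine ⟨μ, hμ, hflow, hmap, K, hK, ?_⟩
  intro ε C3 δ L0 εc B' l0 n Ψ Ψa Ψn Ψl Ψ' Ψa' Ψn' Ψl' hε hε1 hC3 hδ hδε hL0 hεc hl0 hS hS' h01 h01' hn1 hn2 hn3 hn4 hLF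
  obtain ⟨r2, hr2, hfinal⟩ := hHM ε C3 δ L0 εc B' l0 n Ψ Ψa Ψn Ψl Ψ' Ψa' Ψn' Ψl' hε hε1 hC3 hδ hδε hL0 hεc hl0
    hS hS' h01 h01' hn1 hn2 hn3 hn4 hLF
  have hI := hS.i0
  have hI' := hS'.i0
  have hc := DU1_lift_cont Γ Ψ hI
  have hc' := DU1_lift_cont Γ Ψ' hI'
  have g01 : ∀ x, 0 ≤ DU1_lift Γ Ψ hI x ∧ DU1_lift Γ Ψ hI x ≤ 1 := by
    intro x
    obtain ⟨g, rfl⟩ := hsur x
    exact h01 g
  have g01' : ∀ x, 0 ≤ DU1_lift Γ Ψ' hI' x ∧ DU1_lift Γ Ψ' hI' x ≤ 1 := by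
    intro x
    obtain ⟨g, rfl⟩ := hsur x
    exact h01' g
  have hi := HLG_low Γ hsur μ hμ Ψ hI h01
  have hi' := HLG_low Γ hsur μ hμ Ψ' hI' h01'
  set m : ℝ := μ.real (one Γ Ψ) + μ.real (one Γ Ψ') with hm
  have hm0 : 0 ≤ m := add_nonneg measureReal_nonneg measureReal_nonneg
  have hm2 : m ≤ 2 := by
    have h1 : μ.real (one Γ Ψ) ≤ 1 := measureReal_le_one
    have h2 : μ.real (one Γ Ψ') ≤ 1 := measureReal_le_one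
    linarith
  have hsum : ∫ x, (DU1_lift Γ Ψ hI x + DU1_lift Γ Ψ' hI' x) ∂μ =
      ∫ x, DU1_lift Γ Ψ hI x ∂μ + ∫ x, DU1_lift Γ Ψ' hI' x ∂μ :=
    integral_add (DU1_int Γ μ hμ _ hc g01) (DU1_int Γ μ hμ _ hc' g01')
  have hb : m - 4 * δ < ∫ x, (DU1_lift Γ Ψ hI x + DU1_lift Γ Ψ' hI' x) ∂μ := by
    rw [hsum]
    linarith
  have hfr := hlow (fun x => DU1_lift Γ Ψ hI x + DU1_lift Γ Ψ' hI' x) (m - 4 * δ) (hc.add hc') hb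
  have hev : ∀ᶠ k in atTop, r2 ≤ r k := hr.eventually (eventually_ge_atTop r2)
  obtain ⟨k, ⟨t, ht1, ht2, ht3⟩, hk⟩ := (hfr.and_eventually hev).exists
  refine hfinal (r k) m t (φ k) hk ?_ (hn0 k) hm0 hm2 ht1 ht2 ht3
  exact ⟨(hφ k).1.of_le (WithTop.coe_le_coe.2 (le_top : (2 : ℕ∞) ≤ ⊤)), (hφ k).2.1, fun z => by rw [(hφ k).2.2 z]⟩

end Pool.Agent.IR
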